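import Pool.Agent.Work.MP_ab1db7_an.MainE

/-!
# MP_ab1db7_an: hull-kernel closed t-analytic sets for `H^∞ + C`

Answer to Q1: NO. There is a hull-kernel closed `t`-analytic set `E ⊆ M(H^∞ + C)` with at least two
points which is not the closure of the Gleason part of any point of `M(H^∞ + C)`.

Idea. Let `τ` be a hyperbolic translation of the disc, `τ^k(z) = (z + t_k)/(1 + t_k z)`. For a
nonprincipal ultrafilter `q` on `ℤ` and `z ∈ 𝔻` let `Φ(q,z) = lim_{k → q} τ^k(z)`. There is a
closed, shift invariant, topologically transitive set `E₀` of nonprincipal ultrafilters in which no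
point has a dense orbit. Put `I = {f ∈ A : f(Φ(q,z)) = 0, q ∈ E₀, z ∈ 𝔻}` and `E = hull I`.
Blaschke products with zeros `t_k` of multiplicities `m_k` and the corona theorem (proved here from
scratch) show that `Φ(E₀ × 𝔻)` is dense in `E`; transitivity gives `t`-analyticity; and
`E = closure (P(x))` would give a point of `E₀` with dense orbit.
-/

set_option autoImplicit false

open Pool.Agent.Alling

namespace Pool.Agent.Results.MP_ab1db7_an.NotClosureOfPart

/-- There is a hull-kernel closed `t`-analytic set `E` for `H^∞ + C`, with at least two points, such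
that `E` is not the (Gelfand) closure of the Gleason part of any `x ∈ M(H^∞ + C)`. -/
theorem result : ∃ E : Set M, HullKernelClosed E ∧ TAnalytic E ∧ E.Nontrivial ∧
    ∀ x : M, E ≠ closure (part x) :=
  main

end Pool.Agent.Results.MP_ab1db7_an.NotClosureOfPart
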